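import Mathlib

/-!
# MP_7b3742_al: affine automata generating products of two lamplighter groups

For every `d ≥ 2` let `g` be the affine automorphism of the `d`-ary tree that multiplies the power
series formed by the letters in even positions by `1 + t` and fixes the letters in odd positions.
It is finite-state and the group generated by its automaton is infinite, but no subgroup of finite
index of it is isomorphic to `ℤ_d^k ≀ ℤ^l` with `k, l ≥ 1`: it contains an element of infinite
order that commutes with infinitely many torsion elements.  (The group is the direct product of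
two copies of `ℤ_d ≀ ℤ`.)
-/

namespace Pool.Agent.Results.MP_7b3742_al.InterleavedLamplighters

/-- The boundary of the `d`-ary tree: infinite sequences over `ℤ_d`. -/
abbrev Seq (d : ℕ) : Type := ℕ → ZMod d

variable {d : ℕ}

/-- The sequence `x v` with first letter `x`. -/
def cons (x : ZMod d) (v : Seq d) : Seq d := fun n => Nat.casesOn n x v

/-- The sequence `l v`, for a finite word `l`. -/
def app (l : List (ZMod d)) (v : Seq d) : Seq d := l.foldr cons v

/-- `g` is the affine automorphism `x ↦ b + x A`, for an infinite upper triangular matrix `A` with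
unit diagonal entries; tree automorphisms are given by their action on the boundary. -/
def IsAffine (g : Equiv.Perm (Seq d)) : Prop :=
  ∃ (A : ℕ → ℕ → ZMod d) (b : Seq d), (∀ i, IsUnit (A i i)) ∧ (∀ i j, j < i → A i j = 0) ∧
    ∀ x j, g x j = b j + ∑ i ∈ Finset.range (j + 1), x i * A i j

/-- The set of states `g|_l` of `g`: the automorphism `h` is the state at the finite word `l` when
`g (l w)` is obtained from `h w` by putting `|l|` letters in front of it, for every `w`. -/
def states (g : Equiv.Perm (Seq d)) : Set (Equiv.Perm (Seq d)) :=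
  {h | ∃ l : List (ZMod d), ∀ w n, h w n = g (app l w) (n + l.length)}

/-- The group `G_g` generated by the automaton defining `g`. -/
def stateGroup (g : Equiv.Perm (Seq d)) : Subgroup (Equiv.Perm (Seq d)) :=
  Subgroup.closure (states g)

/-- The translation of a finitely supported function `V → A` by `v`. -/
noncomputable def translate (A V : Type) [AddCommGroup A] [AddCommGroup V] (v : V) :
    (V →₀ A) ≃+ (V →₀ A) :=
  Finsupp.domCongr (Equiv.addLeft v)

/-- The action of `V` on `⨁_V A` by shifts. -/
noncomputable def shift (A V : Type) [AddCommGroup A] [AddCommGroup V] :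
    Multiplicative V →* MulAut (Multiplicative (V →₀ A)) where
  toFun v := AddEquiv.toMultiplicative (translate A V v.toAdd)
  map_one' := by
    ext f : 1
    apply Multiplicative.toAdd.injective
    ext i : 1
    change (Multiplicative.toAdd f) (-0 + i) = (Multiplicative.toAdd f) i
    rw [neg_zero, zero_add]
  map_mul' m n := by
    ext f : 1
    apply Multiplicative.toAdd.injective
    ext i : 1
    change (Multiplicative.toAdd f) (-(Multiplicative.toAdd m + Multiplicative.toAdd n) + i) =
      (Multiplicative.toAdd f) (-Multiplicative.toAdd n + (-Multiplicative.toAdd m + i))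
    congr 1
    rw [neg_add_rev, add_assoc]

/-- The restricted wreath product `A ≀ V`. -/
abbrev Wreath (A V : Type) [AddCommGroup A] [AddCommGroup V] : Type :=
  Multiplicative (V →₀ A) ⋊[shift A V] Multiplicative V

/-- The restricted wreath product `ℤ_d^k ≀ ℤ^l`. -/
abbrev Wr (d k l : ℕ) : Type := Wreath (Fin k → ZMod d) (Fin l → ℤ)

/-! ### Centralizers in the wreath product -/

/-- A torsion element commuting with an element outside the base is trivial. -/
theorem wr_torsion {k l : ℕ} (hd : 2 ≤ d) {w e : Wr d k l} (hw : w.right ≠ 1) (he : e ^ d = 1)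
    (hc : w * e = e * w) : e = 1 := by
  have hright : e.right = 1 := by
    have h1 : e.right ^ d = 1 := by
      have := congrArg SemidirectProduct.rightHom he
      rwa [map_pow, map_one] at this
    apply Multiplicative.toAdd.injective
    have h2 : d • Multiplicative.toAdd e.right = 0 := by
      have := congrArg Multiplicative.toAdd h1
      simpa using this
    have h3 : Multiplicative.toAdd e.right = 0 := by
      funext i
      have h4 := congrFun h2 i
      simp only [Pi.smul_apply, Pi.zero_apply, nsmul_eq_mul, mul_eq_zero] at h4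
      rcases h4 with h4 | h4
      · have : d = 0 := by exact_mod_cast h4
        omega
      · exact h4
    exact h3
  have hleft : shift _ _ w.right e.left = e.left := by
    have h1 := congrArg SemidirectProduct.left hc
    rw [SemidirectProduct.mul_left, SemidirectProduct.mul_left, hright, map_one,
      MulAut.one_apply, mul_comm e.left] at h1
    exact mul_left_cancel h1
  have hzero : Multiplicative.toAdd e.left = 0 := by
    set h := Multiplicative.toAdd e.left with hh
    set v := Multiplicative.toAdd w.right with hv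
    have hv0 : v ≠ 0 := fun h0 => hw (Multiplicative.toAdd.injective h0)
    have hper : ∀ x, h (-v + x) = h x := by
      intro x
      have := congrArg (fun f => (Multiplicative.toAdd f) x) hleft
      exact this
    by_contra hne
    obtain ⟨x, hx⟩ := Finsupp.ne_iff.1 hne
    rw [Finsupp.zero_apply] at hx
    have hall : ∀ n : ℕ, h (-(n • v) + x) = h x := by
      intro n
      induction n with
      | zero => simp
      | succ n ih =>
        have e1 : -((n + 1) • v) + x = -v + (-(n • v) + x) := by
          rw [succ_nsmul]; abel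
        rw [e1, hper, ih]
    have hinj : Function.Injective fun n : ℕ => -(n • v) + x := by
      intro m n hmn
      have h1 : m • v = n • v := by simpa using hmn
      obtain ⟨i, hi⟩ : ∃ i, v i ≠ 0 := by
        by_contra hall0
        push Not at hall0
        exact hv0 (funext hall0)
      have h2 := congrFun h1 i
      simp only [Pi.smul_apply, nsmul_eq_mul] at h2
      exact_mod_cast mul_right_cancel₀ hi h2
    refine Set.infinite_of_injective_forall_mem (s := (h.support : Set (Fin l → ℤ))) hinj ?_
      h.support.finite_toSet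
    intro n
    rw [Finset.mem_coe, Finsupp.mem_support_iff, hall n]
    exact hx
  exact SemidirectProduct.ext (Multiplicative.toAdd.injective hzero) hright

/-! ### The permutations -/

/-- Multiplication by `1 + t`. -/
def mulFun (v : Seq d) : Seq d := fun n => Nat.casesOn n (v 0) fun n => v (n + 1) + v n

/-- Its inverse. -/
def divFun (v : Seq d) : Seq d := fun n => Nat.rec (v 0) (fun n u => v (n + 1) - u) n

/-- Multiplication by `1 + t`, as an additive automorphism. -/
def cAdd : Seq d ≃+ Seq d where
  toFun := mulFun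
  invFun := divFun
  left_inv v := by
    funext n
    induction n with
    | zero => rfl
    | succ n ih =>
      change mulFun v (n + 1) - divFun (mulFun v) n = v (n + 1)
      rw [ih]
      change v (n + 1) + v n - v n = v (n + 1)
      ring
  right_inv v := by
    funext n
    cases n with
    | zero => rfl
    | succ n =>
      change divFun v (n + 1) + divFun v n = v (n + 1)
      change v (n + 1) - divFun v n + divFun v n = v (n + 1)
      ring
  map_add' u v := by
    funext n
    cases n with
    | zero => rfl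
    | succ n =>
      change u (n + 1) + v (n + 1) + (u n + v n) = u (n + 1) + u n + (v (n + 1) + v n)
      ring

/-- The sequence `(1, 0, 0, …)` times `y`. -/
def unit0 (y : ZMod d) : Seq d := fun n => if n = 0 then y else 0

/-- The permutation `v ↦ (1 + t) v + y`. -/
def c (y : ZMod d) : Equiv.Perm (Seq d) := cAdd.toEquiv.trans (Equiv.addRight (unit0 y))

theorem c_zero_apply (y : ZMod d) (v : Seq d) : c y v 0 = v 0 + y := rfl

theorem c_succ_apply (y : ZMod d) (v : Seq d) (n : ℕ) : c y v (n + 1) = v (n + 1) + v n := by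
  change v (n + 1) + v n + 0 = v (n + 1) + v n
  rw [add_zero]

theorem c_state (y x : ZMod d) (w : Seq d) (n : ℕ) : c y (cons x w) (n + 1) = c x w n := by
  rw [c_succ_apply]
  cases n with
  | zero => rfl
  | succ n => rw [c_succ_apply]; rfl

/-- Splitting a sequence into the letters in even and in odd positions. -/
def split : Seq d ≃ Seq d × Seq d where
  toFun v := (fun n => v (2 * n), fun n => v (2 * n + 1))
  invFun p := fun n => if n % 2 = 0 then p.1 (n / 2) else p.2 (n / 2)
  left_inv v := by
    funext n
    rcases Nat.mod_two_eq_zero_or_one n with h | h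
    · simp only [h, if_true]
      congr 1; omega
    · simp only [h]
      rw [if_neg (by norm_num)]
      congr 1; omega
  right_inv p := by
    refine Prod.ext ?_ ?_
    · funext n
      simp
    · funext n
      have h1 : (2 * n + 1) % 2 = 1 := by omega
      have h2 : (2 * n + 1) / 2 = n := by omega
      simp only [h1, h2]
      rw [if_neg (by norm_num)]

/-- The permutation acting by `φ` on the even stream and by `ψ` on the odd stream. -/
def J : Equiv.Perm (Seq d) × Equiv.Perm (Seq d) →* Equiv.Perm (Seq d) where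
  toFun p := (split.trans (Equiv.prodCongr p.1 p.2)).trans split.symm
  map_one' := by
    ext v n
    simp
  map_mul' p q := by
    refine Equiv.ext fun v => ?_
    change split.symm ((Equiv.prodCongr (p * q).1 (p * q).2) (split v)) =
      split.symm ((Equiv.prodCongr p.1 p.2)
        (split (split.symm ((Equiv.prodCongr q.1 q.2) (split v)))))
    rw [Equiv.apply_symm_apply]
    rfl

theorem J_apply_even (φ ψ : Equiv.Perm (Seq d)) (v : Seq d) (n : ℕ) :
    J (φ, ψ) v (2 * n) = φ (fun n => v (2 * n)) n := by
  change (if (2 * n) % 2 = 0 then φ (fun n => v (2 * n)) ((2 * n) / 2)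
    else ψ (fun n => v (2 * n + 1)) ((2 * n) / 2)) = _
  have h1 : (2 * n) % 2 = 0 := by omega
  have h2 : (2 * n) / 2 = n := by omega
  rw [if_pos h1, h2]

theorem J_apply_odd (φ ψ : Equiv.Perm (Seq d)) (v : Seq d) (n : ℕ) :
    J (φ, ψ) v (2 * n + 1) = ψ (fun n => v (2 * n + 1)) n := by
  change (if (2 * n + 1) % 2 = 0 then φ (fun n => v (2 * n)) ((2 * n + 1) / 2)
    else ψ (fun n => v (2 * n + 1)) ((2 * n + 1) / 2)) = _
  have h1 : (2 * n + 1) % 2 = 1 := by omega
  have h2 : (2 * n + 1) / 2 = n := by omega
  rw [if_neg (by omega), h2]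

theorem J_state {φ ψ φ' : Equiv.Perm (Seq d)} {x : ZMod d}
    (h : ∀ w n, φ (cons x w) (n + 1) = φ' w n) (w : Seq d) (n : ℕ) :
    J (φ, ψ) (cons x w) (n + 1) = J (ψ, φ') w n := by
  rcases Nat.even_or_odd' n with ⟨k, rfl | rfl⟩
  · rw [J_apply_odd, J_apply_even]
    rfl
  · rw [show 2 * k + 1 + 1 = 2 * (k + 1) by ring, J_apply_even, J_apply_odd, ← h]
    refine congrArg (fun u => φ u (k + 1)) (funext fun m => ?_)
    cases m with
    | zero => rfl
    | succ m => rfl

/-- The candidates for the states. -/
def T : Set (Equiv.Perm (Seq d)) := {h | ∃ y, h = J (c y, 1) ∨ h = J (1, c y)}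

theorem T_state {g : Equiv.Perm (Seq d)} (hg : g ∈ T) (x : ZMod d) :
    ∃ g' ∈ T, ∀ (w : Seq d) (n : ℕ), g (cons x w) (n + 1) = g' w n := by
  obtain ⟨y, rfl | rfl⟩ := hg
  · exact ⟨J (1, c x), ⟨x, Or.inr rfl⟩, J_state (c_state y x)⟩
  · exact ⟨J (c y, 1), ⟨y, Or.inl rfl⟩, J_state (fun _ _ => rfl)⟩

theorem states_subset {g : Equiv.Perm (Seq d)} (hg : g ∈ T) : states g ⊆ T := by
  rintro h ⟨l, hl⟩
  induction l generalizing g with
  | nil =>
    have : h = g := by
      refine Equiv.ext fun w => funext fun n => ?_
      exact hl w n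
    rwa [this]
  | cons x l ih =>
    obtain ⟨g', hg', hs⟩ := T_state hg x
    refine ih hg' fun w n => ?_
    rw [hl w n, ← hs]
    rfl

theorem T_finite (hd : 2 ≤ d) : (T (d := d)).Finite := by
  have : NeZero d := ⟨by omega⟩
  have : (T (d := d)) = Set.range (fun y : ZMod d => J (c y, 1)) ∪
      Set.range (fun y : ZMod d => J (1, c y)) := by
    ext h
    constructor
    · rintro ⟨y, rfl | rfl⟩
      · exact Or.inl ⟨y, rfl⟩
      · exact Or.inr ⟨y, rfl⟩
    · rintro (⟨y, rfl⟩ | ⟨y, rfl⟩)
      · exact ⟨y, Or.inl rfl⟩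
      · exact ⟨y, Or.inr rfl⟩
  rw [this]
  exact (Set.finite_range _).union (Set.finite_range _)

/-- The example. -/
def g0 : Equiv.Perm (Seq d) := J (c 0, 1)

theorem g0_affine : IsAffine (g0 (d := d)) := by
  refine ⟨fun i j => if i = j then 1 else if j = i + 2 ∧ i % 2 = 0 then 1 else 0, 0, ?_, ?_, ?_⟩
  · intro i; simp
  · intro i j hij
    beta_reduce
    rw [if_neg (by omega), if_neg (by omega)]
  · intro x j
    beta_reduce
    rw [Pi.zero_apply, zero_add]
    have hvanish : ∀ m j : ℕ, (∀ i < m, i ≠ j ∧ ¬ (j = i + 2 ∧ i % 2 = 0)) →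
        ∑ i ∈ Finset.range m, x i * (if i = j then (1 : ZMod d) else
          if j = i + 2 ∧ i % 2 = 0 then 1 else 0) = 0 := by
      intro m j h
      refine Finset.sum_eq_zero fun i hi => ?_
      obtain ⟨h1, h2⟩ := h i (Finset.mem_range.1 hi)
      rw [if_neg h1, if_neg h2, mul_zero]
    rcases Nat.even_or_odd' j with ⟨k, rfl | rfl⟩
    · rw [g0, J_apply_even]
      cases k with
      | zero =>
        rw [c_zero_apply]
        simp
      | succ k =>
        rw [c_succ_apply, show 2 * (k + 1) + 1 = 2 * k + 1 + 1 + 1 by ring,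
          Finset.sum_range_succ, Finset.sum_range_succ, Finset.sum_range_succ,
          hvanish (2 * k) (2 * (k + 1)) (fun i hi => by omega),
          if_neg (show ¬ 2 * k = 2 * (k + 1) by omega),
          if_pos (show 2 * (k + 1) = 2 * k + 2 ∧ 2 * k % 2 = 0 by omega),
          if_neg (show ¬ 2 * k + 1 = 2 * (k + 1) by omega),
          if_neg (show ¬ (2 * (k + 1) = 2 * k + 1 + 2 ∧ (2 * k + 1) % 2 = 0) by omega),
          if_pos (show 2 * k + 1 + 1 = 2 * (k + 1) by ring)]
        rw [show 2 * k + 1 + 1 = 2 * (k + 1) by ring]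
        ring
    · rw [g0, J_apply_odd, Finset.sum_range_succ, if_pos rfl,
        hvanish (2 * k + 1) (2 * k + 1) (fun i hi => by omega)]
      simp

theorem mem_states_nil (g : Equiv.Perm (Seq d)) : g ∈ states g := ⟨[], fun _ _ => rfl⟩

theorem mem_states_one (x : ZMod d) : J (1, c x) ∈ states (g0 (d := d)) :=
  ⟨[x], fun w n => (J_state (c_state 0 x) w n).symm⟩

/-! ### Infinite order and translations -/

theorem c0_pow (m n : ℕ) : ((c (0 : ZMod d)) ^ m) (unit0 1) n = (Nat.choose m n : ZMod d) := by
  induction m generalizing n with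
  | zero =>
    cases n with
    | zero => rw [pow_zero]; simp [unit0]
    | succ n => rw [pow_zero]; simp [unit0]
  | succ m ih =>
    rw [pow_succ', Equiv.Perm.mul_apply]
    cases n with
    | zero => rw [c_zero_apply, ih]; simp
    | succ n =>
      rw [c_succ_apply, ih, ih, Nat.choose_succ_succ, Nat.cast_add, add_comm]

theorem c0_add (u v : Seq d) : c 0 (u + v) = c 0 u + c 0 v := by
  funext n
  cases n with
  | zero =>
    rw [Pi.add_apply, c_zero_apply, c_zero_apply, c_zero_apply, Pi.add_apply]; ring
  | succ n =>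
    rw [Pi.add_apply, c_succ_apply, c_succ_apply, c_succ_apply, Pi.add_apply, Pi.add_apply]; ring

theorem c0_pow_add (m : ℕ) (u v : Seq d) :
    ((c (0 : ZMod d)) ^ m) (u + v) = ((c 0) ^ m) u + ((c 0) ^ m) v := by
  induction m with
  | zero => rfl
  | succ m ih =>
    rw [pow_succ', Equiv.Perm.mul_apply, ih, c0_add, Equiv.Perm.mul_apply, Equiv.Perm.mul_apply]

theorem apply_inv_self' {α : Type} (f : Equiv.Perm α) (x : α) : f (f⁻¹ x) = x := by
  rw [← Equiv.Perm.mul_apply, mul_inv_cancel, Equiv.Perm.one_apply]

/-- The translation by `1`. -/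
def tau : Equiv.Perm (Seq d) := c 1 * (c 0)⁻¹

theorem tau_apply (v : Seq d) : tau v = v + unit0 1 := by
  have h : ∀ u : Seq d, c 1 u = c 0 u + unit0 1 := by
    intro u
    funext n
    cases n with
    | zero =>
      rw [Pi.add_apply, c_zero_apply, c_zero_apply]; simp [unit0]
    | succ n =>
      rw [Pi.add_apply, c_succ_apply, c_succ_apply]; simp [unit0]
  rw [tau, Equiv.Perm.mul_apply, h, apply_inv_self']

/-- The translation by `(1 + t) ^ i`. -/
def tr (i : ℕ) : Equiv.Perm (Seq d) := (c 0) ^ i * tau * ((c 0) ^ i)⁻¹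

theorem tr_apply (i : ℕ) (v : Seq d) : tr i v = v + ((c 0) ^ i) (unit0 1) := by
  rw [tr, Equiv.Perm.mul_apply, Equiv.Perm.mul_apply, tau_apply, c0_pow_add,
    apply_inv_self']

theorem tr_comm (i j : ℕ) : tr (d := d) i * tr j = tr j * tr i := by
  ext v n
  rw [Equiv.Perm.mul_apply, Equiv.Perm.mul_apply, tr_apply, tr_apply, tr_apply, tr_apply]
  rw [add_right_comm]

theorem tr_pow_apply (i m : ℕ) (v : Seq d) :
    ((tr i) ^ m) v = v + m • ((c 0) ^ i) (unit0 1) := by
  induction m with
  | zero => rw [pow_zero, zero_smul, add_zero]; rfl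
  | succ m ih => rw [pow_succ', Equiv.Perm.mul_apply, ih, tr_apply, succ_nsmul, add_assoc]

theorem tr_pow_d (i : ℕ) : (tr (d := d) i) ^ d = 1 := by
  ext v n
  rw [tr_pow_apply]
  simp

theorem one_ne_zero' (hd : 2 ≤ d) : (1 : ZMod d) ≠ 0 := by
  have : Fact (1 < d) := ⟨by omega⟩
  exact one_ne_zero

theorem tr_injective (hd : 2 ≤ d) : Function.Injective (tr (d := d)) := by
  intro i j hij
  have h : ∀ i j : ℕ, i < j → tr (d := d) i ≠ tr j := by
    intro i j hlt heq
    have h1 := congrArg (fun f : Equiv.Perm (Seq d) => f 0 j) heq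
    simp only [tr_apply, zero_add, c0_pow] at h1
    rw [Nat.choose_eq_zero_of_lt hlt, Nat.choose_self, Nat.cast_zero, Nat.cast_one] at h1
    exact one_ne_zero' hd h1.symm
  rcases lt_trichotomy i j with hlt | heq | hlt
  · exact absurd hij (h i j hlt)
  · exact heq
  · exact absurd hij.symm (h j i hlt)

theorem c0_pow_ne (hd : 2 ≤ d) {m : ℕ} (hm : 0 < m) : (c (0 : ZMod d)) ^ m ≠ 1 := by
  intro heq
  have h1 := c0_pow (d := d) m m
  rw [heq, Equiv.Perm.one_apply, Nat.choose_self, Nat.cast_one] at h1
  simp only [unit0] at h1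
  rw [if_neg (by omega)] at h1
  exact one_ne_zero' hd h1.symm

theorem J_injective : Function.Injective (J (d := d)) := by
  intro p q h
  have h1 : Equiv.prodCongr p.1 p.2 = Equiv.prodCongr q.1 q.2 := by
    ext1 x
    have := congrArg (fun f : Equiv.Perm (Seq d) => split (f (split.symm x))) h
    simpa [J] using this
  refine Prod.ext ?_ ?_
  · ext1 u
    have := congrArg (fun f => (f (u, u)).1) h1
    exact this
  · ext1 u
    have := congrArg (fun f => (f (u, u)).2) h1
    exact this

theorem g0_pow (m : ℕ) : (g0 (d := d)) ^ m = J ((c 0) ^ m, 1) := by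
  rw [g0, ← map_pow, Prod.pow_mk, one_pow]

theorem g0_pow_ne (hd : 2 ≤ d) {m : ℕ} (hm : 0 < m) : (g0 (d := d)) ^ m ≠ 1 := by
  intro heq
  rw [g0_pow, ← map_one J] at heq
  exact c0_pow_ne hd hm (congrArg Prod.fst (J_injective heq))

/-- The translations of the odd stream. -/
def bb (i : ℕ) : Equiv.Perm (Seq d) := J (1, tr i)

theorem bb_mem (i : ℕ) : bb (d := d) i ∈ stateGroup (g0 (d := d)) := by
  have h0 : J (1, c 0) ∈ stateGroup (g0 (d := d)) := Subgroup.subset_closure (mem_states_one 0)
  have h1 : J (1, c 1) ∈ stateGroup (g0 (d := d)) := Subgroup.subset_closure (mem_states_one 1)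
  have : bb (d := d) i = J (1, c 0) ^ i * (J (1, c 1) * (J (1, c 0))⁻¹) * (J (1, c 0) ^ i)⁻¹ := by
    rw [← map_inv, ← map_mul, ← map_pow, ← map_inv, ← map_mul, ← map_mul]
    simp [bb, tr, tau]
  rw [this]
  exact mul_mem (mul_mem (pow_mem h0 i) (mul_mem h1 (inv_mem h0))) (inv_mem (pow_mem h0 i))

/-- **Disproof for every `d ≥ 2`.** -/
theorem result (d : ℕ) (hd : 2 ≤ d) :
    ∃ g : Equiv.Perm (Seq d), IsAffine g ∧ (states g).Finite ∧ Infinite (stateGroup g) ∧
      ∀ k l : ℕ, 1 ≤ k → 1 ≤ l → ∀ N : Subgroup (stateGroup g), N.FiniteIndex →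
        IsEmpty (N ≃* Wr d k l) := by
  refine ⟨g0, g0_affine, (T_finite hd).subset (states_subset ⟨0, Or.inl rfl⟩), ?_, ?_⟩
  · -- infinite
    refine Infinite.of_injective (fun i : ℕ => (⟨bb i, bb_mem i⟩ : stateGroup (g0 (d := d)))) ?_
    intro i j hij
    have h1 : bb (d := d) i = bb j := congrArg Subtype.val hij
    exact tr_injective hd (congrArg Prod.snd (J_injective h1))
  · intro k l _ _ N hN
    refine ⟨fun φ => ?_⟩
    let G := stateGroup (g0 (d := d))
    let a : G := ⟨g0, Subgroup.subset_closure (mem_states_nil _)⟩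
    let B : ℕ → G := fun i => ⟨bb i, bb_mem i⟩
    -- a power of `a` lies in `N`
    obtain ⟨m, hm0, hm⟩ : ∃ m : ℕ, 0 < m ∧ a ^ m ∈ N := by
      obtain ⟨m, hm, _, h⟩ := Subgroup.exists_pow_mem_of_index_ne_zero hN.index_ne_zero a
      exact ⟨m, hm, h⟩
    -- two of the translations lie in the same coset
    obtain ⟨i, j, hij, hcos⟩ : ∃ i j : ℕ, i ≠ j ∧ (B i)⁻¹ * B j ∈ N := by
      have : Finite (G ⧸ N) := Subgroup.finite_quotient_of_finiteIndex
      obtain ⟨i, j, hij, h⟩ := Finite.exists_ne_map_eq_of_infinite (fun i : ℕ => (B i : G ⧸ N))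
      exact ⟨i, j, hij, QuotientGroup.eq.1 h⟩
    let A' : N := ⟨a ^ m, hm⟩
    let E' : N := ⟨(B i)⁻¹ * B j, hcos⟩
    -- the second one is torsion
    have hE : E' ^ d = 1 := by
      apply Subtype.ext
      apply Subtype.ext
      change ((bb (d := d) i)⁻¹ * bb j) ^ d = 1
      have h1 : (bb (d := d) i)⁻¹ * bb j = J (1, (tr i)⁻¹ * tr j) := by
        rw [bb, bb, ← map_inv, ← map_mul]; simp
      have h2 : Commute (tr (d := d) i)⁻¹ (tr j) := Commute.inv_left (tr_comm i j)
      rw [h1, ← map_pow]
      have h3 : ((tr (d := d) i)⁻¹ * tr j) ^ d = 1 := by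
        rw [h2.mul_pow, inv_pow, tr_pow_d, tr_pow_d, inv_one, one_mul]
      have h4 : ((1 : Equiv.Perm (Seq d)), (tr (d := d) i)⁻¹ * tr j) ^ d = 1 := by
        rw [Prod.pow_mk, one_pow, h3]; rfl
      rw [h4, map_one]
    have hE1 : E' ≠ 1 := by
      intro h
      have h1 : (B i)⁻¹ * B j = 1 := congrArg Subtype.val h
      have h2 : B i = B j := inv_mul_eq_one.1 h1
      have h3 : bb (d := d) i = bb j := congrArg Subtype.val h2
      exact hij (tr_injective hd (congrArg Prod.snd (J_injective h3)))
    have hcomm : A' * E' = E' * A' := by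
      apply Subtype.ext
      apply Subtype.ext
      change (g0 (d := d)) ^ m * ((bb i)⁻¹ * bb j) = ((bb i)⁻¹ * bb j) * (g0) ^ m
      rw [g0_pow, bb, bb, ← map_inv, ← map_mul, ← map_mul, ← map_mul]
      simp
    have hAinf : ∀ n : ℕ, 0 < n → A' ^ n ≠ 1 := by
      intro n hn h
      have h1 : (a ^ m) ^ n = 1 := congrArg Subtype.val h
      have h2 : ((g0 (d := d)) ^ m) ^ n = 1 := congrArg Subtype.val h1
      rw [← pow_mul] at h2
      exact g0_pow_ne hd (Nat.mul_pos hm0 hn) h2
    -- transport to the wreath product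
    have hright : (φ A').right ≠ 1 := by
      intro h
      have h1 : (φ A') ^ d = 1 := by
        have h2 : φ A' = SemidirectProduct.inl (φ A').left := by
          refine SemidirectProduct.ext ?_ ?_
          · simp
          · simp [h]
        rw [h2, ← map_pow]
        have h3 : (φ A').left ^ d = 1 := by
          apply Multiplicative.toAdd.injective
          rw [toAdd_pow]
          ext x y
          simp
        rw [h3, map_one]
      rw [← map_pow] at h1
      exact hAinf d (by omega) ((MulEquiv.map_eq_one_iff φ).1 h1)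
    have hfin := wr_torsion hd hright (e := φ E') (by rw [← map_pow, hE, map_one])
      (by rw [← map_mul, hcomm, map_mul])
    exact hE1 ((MulEquiv.map_eq_one_iff φ).1 hfin)

end Pool.Agent.Results.MP_7b3742_al.InterleavedLamplighters
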